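import Pool.Agent.W4.CF.Stms3
import Pool.Agent.H510R2.Div

set_option autoImplicit false

/-!
Project CD: property (B) for a product of three linear forms.
-/

namespace Pool.Agent.W475.CD

open Finset Pool.Agent.W4.CF

theorem split3 (m1 m2 m3 c z k : ℕ) (hk : 1 ≤ k) (hz : 1 ≤ z)
    (h : m1 * m2 * m3 = c * z ^ k)
    (h12 : ∀ q : ℕ, q.Prime → q ∣ z → q ∣ m1 → ¬ q ∣ m2)
    (h13 : ∀ q : ℕ, q.Prime → q ∣ z → q ∣ m1 → ¬ q ∣ m3)
    (h23 : ∀ q : ℕ, q.Prime → q ∣ z → q ∣ m2 → ¬ q ∣ m3) :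
    ∃ c1 c2 c3 z1 z2 z3 : ℕ, m1 = c1 * z1 ^ k ∧ m2 = c2 * z2 ^ k ∧ m3 = c3 * z3 ^ k ∧
      z1 * z2 * z3 = z ∧ c1 * c2 * c3 = c := by
  have key : ∀ a b : ℕ, (∀ q : ℕ, q.Prime → q ∣ z → q ∣ a → ¬ q ∣ b) →
      Nat.Coprime (Nat.gcd (z ^ k) a) (Nat.gcd (z ^ k) b) := by
    intro a b hab
    by_contra hcon
    obtain ⟨q, hq, hqa, hqb⟩ := Nat.Prime.not_coprime_iff_dvd.1 hcon
    have h1 : q ∣ z := hq.dvd_of_dvd_pow (hqa.trans (Nat.gcd_dvd_left _ _))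
    exact hab q hq h1 (hqa.trans (Nat.gcd_dvd_right _ _)) (hqb.trans (Nat.gcd_dvd_right _ _))
  have c12 := key m1 m2 h12
  have c13 := key m1 m3 h13
  have c23 := key m2 m3 h23
  set a1 := Nat.gcd (z ^ k) m1 with ha1
  set a2 := Nat.gcd (z ^ k) m2 with ha2
  set a3 := Nat.gcd (z ^ k) m3 with ha3
  have hprod : a1 * a2 * a3 = z ^ k := by
    apply Nat.dvd_antisymm
    · apply Nat.Coprime.mul_dvd_of_dvd_of_dvd
      · exact Nat.Coprime.mul_left c13 c23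
      · exact Nat.Coprime.mul_dvd_of_dvd_of_dvd c12 (Nat.gcd_dvd_left _ _) (Nat.gcd_dvd_left _ _)
      · exact Nat.gcd_dvd_left _ _
    · have h1 : Nat.gcd (z ^ k) (m1 * m2 * m3) = z ^ k := by
        rw [h]
        exact Nat.gcd_eq_left (dvd_mul_left _ _)
      calc z ^ k = Nat.gcd (z ^ k) (m1 * m2 * m3) := h1.symm
        _ ∣ Nat.gcd (z ^ k) (m1 * m2) * Nat.gcd (z ^ k) m3 := Nat.gcd_mul_right_dvd_mul_gcd _ _ _
        _ ∣ a1 * a2 * a3 := Nat.mul_dvd_mul (Nat.gcd_mul_right_dvd_mul_gcd _ _ _) dvd_rfl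
  have pw : ∀ a b : ℕ, Nat.Coprime a b → a * b = z ^ k → ∃ d, a = d ^ k := by
    intro a b hab h1
    refine exists_eq_pow_of_mul_eq_pow ?_ h1
    rw [Nat.isUnit_iff]
    exact hab
  obtain ⟨z1, hz1⟩ := pw a1 (a2 * a3) (Nat.Coprime.mul_right c12 c13) (by rw [← hprod]; ring)
  obtain ⟨z2, hz2⟩ := pw a2 (a1 * a3) (Nat.Coprime.mul_right c12.symm c23) (by rw [← hprod]; ring)
  obtain ⟨z3, hz3⟩ := pw a3 (a1 * a2) (Nat.Coprime.mul_right c13.symm c23.symm)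
    (by rw [← hprod]; ring)
  obtain ⟨c1, hc1⟩ : a1 ∣ m1 := Nat.gcd_dvd_right _ _
  obtain ⟨c2, hc2⟩ : a2 ∣ m2 := Nat.gcd_dvd_right _ _
  obtain ⟨c3, hc3⟩ : a3 ∣ m3 := Nat.gcd_dvd_right _ _
  refine ⟨c1, c2, c3, z1, z2, z3, ?_, ?_, ?_, ?_, ?_⟩
  · rw [hc1, hz1, mul_comm]
  · rw [hc2, hz2, mul_comm]
  · rw [hc3, hz3, mul_comm]
  · have h1 : (z1 * z2 * z3) ^ k = z ^ k := by
      rw [mul_pow, mul_pow, ← hz1, ← hz2, ← hz3, hprod]
    exact Nat.pow_left_injective (by omega) h1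
  · have h1 : (c1 * c2 * c3) * z ^ k = c * z ^ k := by
      rw [← h, ← hprod]
      conv_rhs => rw [hc1, hc2, hc3]
      ring
    exact Nat.eq_of_mul_eq_mul_right (by positivity) h1

theorem sgn_abs (x : ℤ) : ∃ e ∈ ({1, -1} : Finset ℤ), x = e * (x.natAbs : ℤ) := by
  rcases Int.natAbs_eq x with h | h
  · exact ⟨1, by simp, by rw [one_mul]; exact h⟩
  · exact ⟨-1, by simp, by rw [neg_one_mul]; exact h⟩

theorem count2 (ra rb : ℤ) (hab : ra ≠ rb) (k c N : ℕ) (hc : 1 ≤ c) (W : ℝ) (hW : 0 ≤ W)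
    (t : Finset (ℤ × ℤ))
    (ht : ∀ p ∈ t, ∃ ca cb za zb : ℕ, ca ∣ c ∧ cb ∣ c ∧ 1 ≤ za ∧ za ≤ N ∧ 1 ≤ zb ∧
      (za : ℝ) * zb ≤ W ∧ (p.1 - ra * p.2).natAbs = ca * za ^ k ∧
      (p.1 - rb * p.2).natAbs = cb * zb ^ k) :
    (t.card : ℝ) ≤ 4 * (c.divisors.card : ℝ) ^ 2 * (W * (1 + Real.log N)) := by
  classical
  let S : Finset (Σ _ : ℕ, ℕ) := (Icc 1 N).sigma (fun n => Icc 1 ⌊W / n⌋₊)
  let P : Finset ((ℕ × ℕ) × ((ℤ × ℤ) × (Σ _ : ℕ, ℕ))) :=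
    (c.divisors ×ˢ c.divisors) ×ˢ
      ((({1, -1} : Finset ℤ) ×ˢ ({1, -1} : Finset ℤ)) ×ˢ S)
  let f : (ℕ × ℕ) × ((ℤ × ℤ) × (Σ _ : ℕ, ℕ)) → ℤ × ℤ := fun x =>
    (x.2.1.1 * ((x.1.1 * x.2.2.1 ^ k : ℕ) : ℤ), x.2.1.2 * ((x.1.2 * x.2.2.2 ^ k : ℕ) : ℤ))
  let g : ℤ × ℤ → ℤ × ℤ := fun p => (p.1 - ra * p.2, p.1 - rb * p.2)
  have hg : Function.Injective g := by
    rintro ⟨x, y⟩ ⟨x', y'⟩ hxy
    simp only [g, Prod.mk.injEq] at hxy
    obtain ⟨e1, e2⟩ := hxy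
    have e3 : (ra - rb) * (y - y') = 0 := by linear_combination e2 - e1
    rcases mul_eq_zero.1 e3 with e4 | e4
    · exact absurd (sub_eq_zero.1 e4) hab
    · have e5 : y = y' := sub_eq_zero.1 e4
      subst e5
      have e6 : x = x' := by linear_combination e1
      rw [e6]
  have hsub : t.image g ⊆ P.image f := by
    intro w hw
    obtain ⟨p, hp, rfl⟩ := Finset.mem_image.1 hw
    obtain ⟨ca, cb, za, zb, h1, h2, h3, h4, h5, h6, h7, h8⟩ := ht p hp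
    obtain ⟨ea, hea, hea'⟩ := sgn_abs (p.1 - ra * p.2)
    obtain ⟨eb, heb, heb'⟩ := sgn_abs (p.1 - rb * p.2)
    refine Finset.mem_image.2 ⟨((ca, cb), ((ea, eb), ⟨za, zb⟩)), ?_, ?_⟩
    · simp only [P, S, Finset.mem_product, Finset.mem_sigma, Nat.mem_divisors, Finset.mem_Icc]
      refine ⟨⟨⟨h1, by omega⟩, ⟨h2, by omega⟩⟩, ⟨hea, heb⟩, ⟨h3, h4⟩, h5, ?_⟩
      apply Nat.le_floor
      have h9 : (0 : ℝ) < za := by exact_mod_cast h3
      rw [le_div_iff₀ h9, mul_comm]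
      exact h6
    · simp only [f, g]
      rw [Prod.mk.injEq]
      constructor
      · rw [← h7]; exact hea'.symm
      · rw [← h8]; exact heb'.symm
  have hcard : t.card ≤ P.card := by
    rw [← Finset.card_image_of_injective t hg]
    exact (Finset.card_le_card hsub).trans Finset.card_image_le
  have hP : P.card = c.divisors.card * c.divisors.card * (4 * ∑ n ∈ Icc 1 N, ⌊W / n⌋₊) := by
    simp only [P, S, Finset.card_product, Finset.card_sigma, Nat.card_Icc, Nat.add_sub_cancel]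
    have h2 : ({1, -1} : Finset ℤ).card = 2 := by decide
    rw [h2]
  have hsum : ((∑ n ∈ Icc 1 N, ⌊W / n⌋₊ : ℕ) : ℝ) ≤ W * (1 + Real.log N) := by
    push_cast
    calc ∑ n ∈ Icc 1 N, ((⌊W / n⌋₊ : ℕ) : ℝ) ≤ ∑ n ∈ Icc 1 N, W * ((n : ℝ)⁻¹) := by
          apply Finset.sum_le_sum
          intro n _
          rw [← div_eq_mul_inv]
          exact Nat.floor_le (by positivity)
      _ = W * ((harmonic N : ℚ) : ℝ) := by
          rw [← Finset.mul_sum, harmonic_eq_sum_Icc]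
          push_cast
          rfl
      _ ≤ W * (1 + Real.log N) := mul_le_mul_of_nonneg_left (harmonic_le_one_add_log N) hW
  calc (t.card : ℝ) ≤ (P.card : ℝ) := by exact_mod_cast hcard
    _ = 4 * (c.divisors.card : ℝ) ^ 2 * ((∑ n ∈ Icc 1 N, ⌊W / n⌋₊ : ℕ) : ℝ) := by
        rw [hP]; push_cast; ring
    _ ≤ _ := mul_le_mul_of_nonneg_left hsum (by positivity)

theorem real_two_thirds (a b d z : ℕ) (Z : ℝ) (hZ : 1 ≤ Z) (ha : a ≤ d) (hb : b ≤ d)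
    (h : a * b * d = z) (hz : (z : ℝ) ≤ Z) : (a : ℝ) * b ≤ Z ^ ((2 : ℝ) / 3) := by
  have hZ0 : (0 : ℝ) ≤ Z := by linarith
  have h1 : (Z ^ ((2 : ℝ) / 3)) ^ 3 = Z ^ 2 := by
    rw [← Real.rpow_natCast, ← Real.rpow_mul hZ0, ← Real.rpow_natCast]
    norm_num
  have h2 : ((a : ℝ) * b) ^ 3 ≤ (z : ℝ) ^ 2 := by
    have h3 : (a * b) ^ 3 ≤ z ^ 2 := by
      rw [← h]
      calc (a * b) ^ 3 = (a * b) ^ 2 * (a * b) := by ring
        _ ≤ (a * b) ^ 2 * (d * d) := Nat.mul_le_mul_left _ (Nat.mul_le_mul ha hb)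
        _ = (a * b * d) ^ 2 := by ring
    exact_mod_cast h3
  have h4 : ((a : ℝ) * b) ^ 3 ≤ (Z ^ ((2 : ℝ) / 3)) ^ 3 := by
    rw [h1]
    exact h2.trans (pow_le_pow_left₀ (by positivity) hz 2)
  exact (pow_le_pow_iff_left₀ (by positivity) (by positivity) (by norm_num)).1 h4

/-- a prime dividing two of the forms divides the difference of the roots -/
theorem prime_two (u v ra rb : ℤ) (huv : IsCoprime u v) (q : ℕ) (hq : q.Prime)
    (ha : q ∣ (u - ra * v).natAbs) (hb : q ∣ (u - rb * v).natAbs) : (q : ℤ) ∣ ra - rb := by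
  have hqi : Prime (q : ℤ) := Nat.prime_iff_prime_int.1 hq
  have ha' : (q : ℤ) ∣ u - ra * v := Int.natCast_dvd.2 ha
  have hb' : (q : ℤ) ∣ u - rb * v := Int.natCast_dvd.2 hb
  have h1 : (q : ℤ) ∣ (ra - rb) * v := by
    have := dvd_sub hb' ha'
    have e : u - rb * v - (u - ra * v) = (ra - rb) * v := by ring
    rwa [e] at this
  rcases hqi.dvd_or_dvd h1 with h2 | h2
  · exact h2
  · exfalso
    have h3 : (q : ℤ) ∣ u := by
      have := dvd_add ha' (dvd_mul_of_dvd_right h2 ra)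
      simpa using this
    obtain ⟨x, y, hxy⟩ := huv
    have h4 : (q : ℤ) ∣ 1 := by
      rw [← hxy]
      exact dvd_add (dvd_mul_of_dvd_right h3 x) (dvd_mul_of_dvd_right h2 y)
    exact hqi.not_isUnit (isUnit_of_dvd_one h4)

theorem t_BL : S_BL := by
  intro r1 r2 r3 h12 h13 h23 hsum
  have hi0 : (r1 - r2) * (r1 - r3) * (r2 - r3) ≠ 0 :=
    mul_ne_zero (mul_ne_zero (sub_ne_zero.2 h12) (sub_ne_zero.2 h13)) (sub_ne_zero.2 h23)
  set i : ℕ := ((r1 - r2) * (r1 - r3) * (r2 - r3)).natAbs with hidef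
  have hi1 : 1 ≤ i := Nat.one_le_iff_ne_zero.2 (by rw [hidef]; exact Int.natAbs_ne_zero.2 hi0)
  refine ⟨i, hi1, ?_⟩
  intro k ε hk hε
  obtain ⟨C1, hC1, hdiv⟩ := Pool.Agent.H510R2.divisor_bound (ε / 2) (by positivity)
  set C0 : ℝ := 1 + |(r1 : ℝ)| + |(r2 : ℝ)| + |(r3 : ℝ)| with hC0
  have hC0' : 1 ≤ C0 := by
    have := abs_nonneg (r1 : ℝ)
    have := abs_nonneg (r2 : ℝ)
    have := abs_nonneg (r3 : ℝ)
    rw [hC0]; linarith
  have hlogC0 : 0 ≤ Real.log C0 := Real.log_nonneg hC0'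
  refine ⟨12 * C1 ^ 2 * (1 + Real.log C0 + 1 / ε), by positivity, ?_⟩
  intro Y Z hY hZ c hc s hs
  set N : ℕ := ⌊C0 * Y⌋₊ with hN
  set W : ℝ := Z ^ ((2 : ℝ) / 3) with hW
  have hW0 : 0 ≤ W := by rw [hW]; positivity
  let D : ℤ → ℤ → ℤ × ℤ → Prop := fun ra rb p =>
    ∃ ca cb za zb : ℕ, ca ∣ c ∧ cb ∣ c ∧ 1 ≤ za ∧ za ≤ N ∧ 1 ≤ zb ∧
      (za : ℝ) * zb ≤ W ∧ (p.1 - ra * p.2).natAbs = ca * za ^ k ∧
      (p.1 - rb * p.2).natAbs = cb * zb ^ k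
  classical
  have hcover : s ⊆ s.filter (D r1 r2) ∪ (s.filter (D r1 r3) ∪ s.filter (D r2 r3)) := by
    rintro ⟨u, v⟩ hp
    obtain ⟨huv, hu, hv, z, hz1, hzZ, hcop, hG⟩ := hs _ hp
    simp only at huv hu hv hG
    have hG' : (u - r1 * v).natAbs * (u - r2 * v).natAbs * (u - r3 * v).natAbs = c * z ^ k := by
      rw [← hG, ← Int.natAbs_mul, ← Int.natAbs_mul]
      congr 1
      unfold G
      linear_combination (-(u ^ 2 * v)) * hsum
    have hzi : Nat.Coprime z i := Nat.Coprime.coprime_mul_right_right hcop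
    have hpr : ∀ ra rb : ℤ, (ra - rb) ∣ (r1 - r2) * (r1 - r3) * (r2 - r3) →
        ∀ q : ℕ, q.Prime → q ∣ z → q ∣ (u - ra * v).natAbs → ¬ q ∣ (u - rb * v).natAbs := by
      intro ra rb hd q hq hqz ha hb
      have h1 := (prime_two u v ra rb huv q hq ha hb).trans hd
      have h2 : q ∣ i := Int.natCast_dvd.1 h1
      have h3 := Nat.dvd_gcd hqz h2
      rw [hzi] at h3
      exact hq.one_lt.ne' (Nat.dvd_one.1 h3)
    obtain ⟨c1, c2, c3, z1, z2, z3, e1, e2, e3, ez, ec⟩ := split3 _ _ _ c z k hk hz1 hG'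
      (hpr r1 r2 ⟨(r1 - r3) * (r2 - r3), by ring⟩)
      (hpr r1 r3 ⟨(r1 - r2) * (r2 - r3), by ring⟩)
      (hpr r2 r3 ⟨(r1 - r2) * (r1 - r3), by ring⟩)
    have hd1 : c1 ∣ c := ⟨c2 * c3, by rw [← ec]; ring⟩
    have hd2 : c2 ∣ c := ⟨c1 * c3, by rw [← ec]; ring⟩
    have hd3 : c3 ∣ c := ⟨c1 * c2, by rw [← ec]; ring⟩
    have hz0 : z1 * z2 * z3 ≠ 0 := by rw [ez]; omega
    have hc0 : c1 * c2 * c3 ≠ 0 := by rw [ec]; omega
    have hz1' : 1 ≤ z1 := Nat.one_le_iff_ne_zero.2 (by rintro rfl; simp at hz0)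
    have hz2' : 1 ≤ z2 := Nat.one_le_iff_ne_zero.2 (by rintro rfl; simp at hz0)
    have hz3' : 1 ≤ z3 := Nat.one_le_iff_ne_zero.2 (by rintro rfl; simp at hz0)
    have hc1' : 1 ≤ c1 := Nat.one_le_iff_ne_zero.2 (by rintro rfl; simp at hc0)
    have hc2' : 1 ≤ c2 := Nat.one_le_iff_ne_zero.2 (by rintro rfl; simp at hc0)
    have hc3' : 1 ≤ c3 := Nat.one_le_iff_ne_zero.2 (by rintro rfl; simp at hc0)
    have hbd : ∀ (ra : ℤ) (ca za : ℕ), 1 + |(ra : ℝ)| ≤ C0 → 1 ≤ ca → 1 ≤ za →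
        (u - ra * v).natAbs = ca * za ^ k → za ≤ N := by
      intro ra ca za hra hca hza he
      apply Nat.le_floor
      have h1 : za ≤ (u - ra * v).natAbs := by
        rw [he]
        calc za = 1 * za ^ 1 := by ring
          _ ≤ ca * za ^ k := Nat.mul_le_mul hca (Nat.pow_le_pow_right hza hk)
      have h2 : (((u - ra * v).natAbs : ℕ) : ℝ) = |(u : ℝ) - ra * v| := by
        rw [Nat.cast_natAbs]
        push_cast
        rfl
      have h3 : (za : ℝ) ≤ |(u : ℝ) - ra * v| := by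
        rw [← h2]; exact_mod_cast h1
      have h4 : |(u : ℝ) - ra * v| ≤ |(u : ℝ)| + |(ra : ℝ)| * |(v : ℝ)| := by
        rw [← abs_mul]; exact abs_sub _ _
      have h5 : |(ra : ℝ)| * |(v : ℝ)| ≤ |(ra : ℝ)| * Y :=
        mul_le_mul_of_nonneg_left hv (abs_nonneg _)
      have h6 : (1 + |(ra : ℝ)|) * Y ≤ C0 * Y := mul_le_mul_of_nonneg_right hra (by linarith)
      nlinarith
    have a1 := abs_nonneg (r1 : ℝ)
    have a2 := abs_nonneg (r2 : ℝ)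
    have a3 := abs_nonneg (r3 : ℝ)
    have hn1 : z1 ≤ N := hbd r1 c1 z1 (by rw [hC0]; linarith) hc1' hz1' e1
    have hn2 : z2 ≤ N := hbd r2 c2 z2 (by rw [hC0]; linarith) hc2' hz2' e2
    rw [Finset.mem_union, Finset.mem_union, Finset.mem_filter, Finset.mem_filter,
      Finset.mem_filter]
    by_cases hA : z1 ≤ z3 ∧ z2 ≤ z3
    · left
      refine ⟨hp, c1, c2, z1, z2, hd1, hd2, hz1', hn1, hz2', ?_, e1, e2⟩
      exact real_two_thirds z1 z2 z3 z Z hZ hA.1 hA.2 ez hzZ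
    · by_cases hB : z1 ≤ z2 ∧ z3 ≤ z2
      · right; left
        refine ⟨hp, c1, c3, z1, z3, hd1, hd3, hz1', hn1, hz3', ?_, e1, e3⟩
        exact real_two_thirds z1 z3 z2 z Z hZ hB.1 hB.2 (by rw [← ez]; ring) hzZ
      · right; right
        refine ⟨hp, c2, c3, z2, z3, hd2, hd3, hz2', hn2, hz3', ?_, e2, e3⟩
        exact real_two_thirds z2 z3 z1 z Z hZ (by omega) (by omega) (by rw [← ez]; ring) hzZ
  have hcnt : ∀ ra rb : ℤ, ra ≠ rb → ((s.filter (D ra rb)).card : ℝ) ≤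
      4 * (c.divisors.card : ℝ) ^ 2 * (W * (1 + Real.log N)) := by
    intro ra rb hab
    apply count2 ra rb hab k c N hc W hW0
    intro p hp
    exact (Finset.mem_filter.1 hp).2
  have hcard : (s.card : ℝ) ≤ 3 * (4 * (c.divisors.card : ℝ) ^ 2 * (W * (1 + Real.log N))) := by
    have h1 : s.card ≤ (s.filter (D r1 r2)).card +
        ((s.filter (D r1 r3)).card + (s.filter (D r2 r3)).card) :=
      (Finset.card_le_card hcover).trans ((Finset.card_union_le _ _).trans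
        (Nat.add_le_add_left (Finset.card_union_le _ _) _))
    have h2 : (s.card : ℝ) ≤ ((s.filter (D r1 r2)).card : ℝ) +
        (((s.filter (D r1 r3)).card : ℝ) + ((s.filter (D r2 r3)).card : ℝ)) := by
      exact_mod_cast h1
    have h3 := hcnt r1 r2 h12
    have h4 := hcnt r1 r3 h13
    have h5 := hcnt r2 r3 h23
    linarith
  have hY0 : 0 < Y := by linarith
  have hYε : 1 ≤ Y ^ ε := Real.one_le_rpow hY hε.le
  have hlog : 1 + Real.log N ≤ (1 + Real.log C0 + 1 / ε) * Y ^ ε := by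
    have h1 : (N : ℝ) ≤ C0 * Y := Nat.floor_le (by positivity)
    have h2 : Real.log N ≤ Real.log (C0 * Y) := by
      by_cases hN0 : N = 0
      · rw [hN0]
        simp only [Nat.cast_zero, Real.log_zero]
        exact Real.log_nonneg (by nlinarith)
      · exact Real.log_le_log (by exact_mod_cast Nat.pos_of_ne_zero hN0) h1
    rw [Real.log_mul (by positivity) hY0.ne'] at h2
    have h3 := Real.log_le_rpow_div hY0.le hε
    have h4 : (1 + Real.log C0 + 1 / ε) * Y ^ ε = Y ^ ε + Real.log C0 * Y ^ ε + Y ^ ε / ε := by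
      ring
    rw [h4]
    nlinarith
  have hdc : (c.divisors.card : ℝ) ^ 2 ≤ C1 ^ 2 * (c : ℝ) ^ ε := by
    have h1 := hdiv c hc
    have h2 : ((c : ℝ) ^ (ε / 2)) ^ 2 = (c : ℝ) ^ ε := by
      rw [← Real.rpow_natCast, ← Real.rpow_mul (by positivity)]
      congr 1
      push_cast
      ring
    calc (c.divisors.card : ℝ) ^ 2 ≤ (C1 * (c : ℝ) ^ (ε / 2)) ^ 2 :=
          pow_le_pow_left₀ (by positivity) h1 2
      _ = C1 ^ 2 * (c : ℝ) ^ ε := by rw [mul_pow, h2]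
  have hlog0 : 0 ≤ 1 + Real.log N := by
    have : 0 ≤ Real.log (N : ℝ) := Real.log_natCast_nonneg N
    linarith
  calc (s.card : ℝ) ≤ 3 * (4 * (c.divisors.card : ℝ) ^ 2 * (W * (1 + Real.log N))) := hcard
    _ ≤ 3 * (4 * (C1 ^ 2 * (c : ℝ) ^ ε) * (W * ((1 + Real.log C0 + 1 / ε) * Y ^ ε))) := by
        gcongr
    _ = 12 * C1 ^ 2 * (1 + Real.log C0 + 1 / ε) * (Y * c) ^ ε * W := by
        rw [Real.mul_rpow hY0.le (by positivity)]
        ring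

end Pool.Agent.W475.CD
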