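import Pool.Agent.W4.CF.Stms3

set_option autoImplicit false

/-!
Project CD: the factorisation of `u - vρ` in a quadratic field (adapted from `Pool.Agent.W721.CF.NRM`
and `Pool.Agent.W762.CF.IDEAL`).
-/

namespace Pool.Agent.W475.CD

open NumberField Finset Pool.Agent.W4.CF

section

variable {K : Type} [Field K] [NumberField K] {ρ : 𝓞 K} {r A : ℤ}

theorem quad_eq (h : Quad K ρ r A) : (ρ : K) ^ 2 = -(r : K) * (ρ : K) - ((r : K) ^ 2 - A) := by
  have h1 := congrArg (algebraMap (𝓞 K) K) h.2.2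
  simp only [map_add, map_mul, map_pow, map_sub, map_intCast, map_zero] at h1
  linear_combination h1

theorem minpoly_deg (h : Quad K ρ r A) : (minpoly ℚ (ρ : K)).natDegree = 2 := by
  have hint : IsIntegral ℚ (ρ : K) := IsIntegral.of_finite ℚ _
  have h1 := minpoly.degree_dvd hint
  rw [h.1] at h1
  rcases (Nat.dvd_prime Nat.prime_two).mp h1 with h2 | h2
  · exfalso
    rw [minpoly.natDegree_eq_one_iff] at h2
    obtain ⟨r, hr⟩ := h2
    exact h.2.1 r hr.symm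
  · exact h2

/-- `1, ρ` are independent -/
theorem linInd (h : Quad K ρ r A) : LinearIndependent ℚ (fun i : Fin 2 => (ρ : K) ^ (i : ℕ)) := by
  have h1 := linearIndependent_pow (K := ℚ) (ρ : K)
  rw [Fintype.linearIndependent_iff] at h1 ⊢
  intro g hg i
  have hd := minpoly_deg h
  have h2 := h1 (fun j => g (Fin.cast hd j)) (by
    rw [← hg]
    exact Fintype.sum_equiv (finCongr hd) _ _ fun j => rfl) (Fin.cast hd.symm i)
  simpa using h2

/-- the basis `1, ρ` -/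
noncomputable def bas (h : Quad K ρ r A) : Module.Basis (Fin 2) ℚ K :=
  basisOfLinearIndependentOfCardEqFinrank (linInd h) (by rw [h.1, Fintype.card_fin])

theorem bas_apply (h : Quad K ρ r A) (i : Fin 2) : bas h i = (ρ : K) ^ (i : ℕ) := by
  simp [bas]

theorem expand (h : Quad K ρ r A) (α : K) : α = (((bas h).repr α 0 : ℚ) : K) +
    (((bas h).repr α 1 : ℚ) : K) * (ρ : K) := by
  conv_lhs => rw [← (bas h).sum_repr α]
  rw [Fin.sum_univ_two, bas_apply, bas_apply]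
  simp [Algebra.smul_def]

theorem repr_eq (h : Quad K ρ r A) (x y : ℚ) :
    (bas h).repr ((x : K) + (y : K) * (ρ : K)) =
      Finsupp.equivFunOnFinite.symm ![x, y] := by
  have h1 : (x : K) + (y : K) * (ρ : K) =
      ∑ i, (![x, y] : Fin 2 → ℚ) i • bas h i := by
    rw [Fin.sum_univ_two, bas_apply, bas_apply]
    simp [Algebra.smul_def]
  rw [h1, map_sum]
  ext j
  simp only [map_smul, Module.Basis.repr_self, Finsupp.coe_finsetSum, Finset.sum_apply,
    Finsupp.smul_single, smul_eq_mul, mul_one, Finsupp.single_apply]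
  simp

theorem repr0 (h : Quad K ρ r A) (x y : ℚ) :
    (bas h).repr ((x : K) + (y : K) * (ρ : K)) 0 = x := by
  rw [repr_eq]; rfl

theorem repr1 (h : Quad K ρ r A) (x y : ℚ) :
    (bas h).repr ((x : K) + (y : K) * (ρ : K)) 1 = y := by
  rw [repr_eq]; rfl

end

theorem norm_rat {K : Type} [Field K] [NumberField K] {ρ : 𝓞 K} {r A : ℤ} (h : Quad K ρ r A)
    (u v : ℤ) : Algebra.norm ℚ ((u : K) - v * (ρ : K)) =
      ((u ^ 2 + r * u * v + (r ^ 2 - A) * v ^ 2 : ℤ) : ℚ) := by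
  have hc := quad_eq h
  rw [Algebra.norm_eq_matrix_det (bas h)]
  have hM : Algebra.leftMulMatrix (bas h) ((u : K) - v * (ρ : K)) =
      !![(u : ℚ), v * (r ^ 2 - A); -v, u + v * r] := by
    ext i j
    rw [Algebra.leftMulMatrix_eq_repr_mul, bas_apply]
    have k0 : ((u : K) - v * (ρ : K)) * (ρ : K) ^ 0 = ((u : ℚ) : K) + ((-v : ℚ) : K) * (ρ : K) := by
      push_cast; ring
    have k1 : ((u : K) - v * (ρ : K)) * (ρ : K) ^ 1 = ((v * (r ^ 2 - A) : ℚ) : K) +
        ((u + v * r : ℚ) : K) * (ρ : K) := by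
      push_cast
      linear_combination (-(v : K)) * hc
    fin_cases j
    · change (bas h).repr (((u : K) - v * (ρ : K)) * (ρ : K) ^ 0) i = _
      rw [k0]
      fin_cases i
      · exact repr0 h _ _
      · exact repr1 h _ _
    · change (bas h).repr (((u : K) - v * (ρ : K)) * (ρ : K) ^ 1) i = _
      rw [k1]
      fin_cases i
      · exact repr0 h _ _
      · exact repr1 h _ _
  rw [hM, Matrix.det_fin_two_of]
  push_cast
  ring

theorem qnorm {K : Type} [Field K] [NumberField K] {ρ : 𝓞 K} {r A : ℤ} (h : Quad K ρ r A)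
    (u v : ℤ) : Algebra.norm ℤ ((u : 𝓞 K) - v * ρ) =
      u ^ 2 + r * u * v + (r ^ 2 - A) * v ^ 2 := by
  have h1 := norm_rat h u v
  have h2 : ((Algebra.norm ℤ ((u : 𝓞 K) - v * ρ) : ℤ) : ℚ) =
      ((u ^ 2 + r * u * v + (r ^ 2 - A) * v ^ 2 : ℤ) : ℚ) := by
    rw [← h1, Algebra.coe_norm_int]
    simp
  exact_mod_cast h2

theorem qidx {K : Type} [Field K] [NumberField K] {ρ : 𝓞 K} {r A : ℤ} (h : Quad K ρ r A) :
    ∃ i : ℕ, 1 ≤ i ∧ ∀ α : 𝓞 K, ∃ x y : ℤ, (i : 𝓞 K) * α = x + y * ρ := by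
  classical
  let ω := RingOfIntegers.basis K
  let c : Module.Free.ChooseBasisIndex ℤ (𝓞 K) → Fin 2 → ℚ :=
    fun j k => (bas h).repr ((ω j : 𝓞 K) : K) k
  let i : ℕ := ∏ j, ∏ k, (c j k).den
  have hi : 1 ≤ i := Nat.one_le_iff_ne_zero.mpr
    (Finset.prod_ne_zero_iff.mpr fun j _ => Finset.prod_ne_zero_iff.mpr fun k _ => (c j k).den_nz)
  have hdiv : ∀ j k, ∃ m : ℤ, (i : ℚ) * c j k = m := by
    intro j k
    have h1 : (c j k).den ∣ i := by
      refine (Finset.dvd_prod_of_mem (fun k => (c j k).den) (Finset.mem_univ k)).trans ?_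
      exact Finset.dvd_prod_of_mem (fun j => ∏ k, (c j k).den) (Finset.mem_univ j)
    obtain ⟨q, hq⟩ := h1
    refine ⟨q * (c j k).num, ?_⟩
    rw [hq]
    push_cast
    have h2 := Rat.mul_den_eq_num (c j k)
    rw [← h2]
    ring
  choose m hm using hdiv
  refine ⟨i, hi, fun α => ?_⟩
  refine ⟨∑ j, ω.repr α j * m j 0, ∑ j, ω.repr α j * m j 1, ?_⟩
  have hω : ∀ j, (i : 𝓞 K) * ω j = m j 0 + m j 1 * ρ := by
    intro j
    apply RingOfIntegers.coe_injective
    have h3 := expand h ((ω j : 𝓞 K) : K)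
    have h4 : ∀ k, ((m j k : ℤ) : K) = (i : K) * (((bas h).repr ((ω j : 𝓞 K) : K) k : ℚ) : K) := by
      intro k
      have h5 : ((m j k : ℚ) : K) = ((i : ℚ) * c j k : ℚ) := by rw [hm]
      push_cast at h5
      exact h5
    simp only [map_add, map_mul, map_natCast, map_intCast]
    rw [h4 0, h4 1]
    linear_combination (i : K) * h3
  conv_lhs => rw [← ω.sum_repr α, Finset.mul_sum]
  rw [Int.cast_sum, Int.cast_sum, Finset.sum_mul, ← Finset.sum_add_distrib]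
  refine Finset.sum_congr rfl fun j _ => ?_
  rw [zsmul_eq_mul]
  push_cast
  linear_combination ((ω.repr α j : ℤ) : 𝓞 K) * hω j

theorem sup_pow_le {R : Type*} [CommRing R] (I J : Ideal R) (k : ℕ) : (I ⊔ J) ^ k ≤ I ⊔ J ^ k := by
  induction k with
  | zero => simp
  | succ k ih =>
    rw [pow_succ, pow_succ]
    refine (Ideal.mul_mono_left ih).trans ?_
    rw [Ideal.mul_sup, Ideal.sup_mul, Ideal.sup_mul]
    have hl : ∀ X Y : Ideal R, X * Y ≤ Y := fun X Y => Ideal.mul_le_right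
    have hr : ∀ X Y : Ideal R, X * Y ≤ X := fun X Y => Ideal.mul_le_left
    refine sup_le (sup_le ?_ ?_) (sup_le ?_ ?_)
    · exact (hl _ _).trans le_sup_left
    · exact (hl _ _).trans le_sup_left
    · exact (hr _ _).trans le_sup_left
    · exact le_sup_right

theorem t_QFAC : S_QFAC := by
  intro K _ _ ρ r A hQ
  obtain ⟨i, hi, hIdx⟩ := qidx hQ
  refine ⟨i, hi, qnorm hQ, ?_⟩
  intro u v c z k huv hc hz hk hcop hG
  set ξ : 𝓞 K := (u : 𝓞 K) - v * ρ with hξ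
  set I : Ideal (𝓞 K) := Ideal.span {ξ} with hI
  have hNI : Ideal.absNorm I = c * z ^ k := by
    rw [hI, Ideal.absNorm_span_singleton, qnorm hQ u v, hG]
  have hcz : Nat.Coprime z c := Nat.Coprime.coprime_mul_left_right hcop
  have hiz : Nat.Coprime z i := Nat.Coprime.coprime_mul_right_right hcop
  have hfin : Module.finrank ℤ (𝓞 K) = 2 := by
    rw [RingOfIntegers.rank]
    exact hQ.1
  have hnat : ∀ n : ℕ, Ideal.absNorm (Ideal.span {(n : 𝓞 K)}) = n ^ 2 := by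
    intro n
    rw [Ideal.absNorm_span_singleton]
    have h1 : ((n : ℕ) : 𝓞 K) = algebraMap ℤ (𝓞 K) (n : ℤ) := by simp
    rw [h1, Algebra.norm_algebraMap, hfin, Int.natAbs_pow, Int.natAbs_natCast]
  set 𝔞 : Ideal (𝓞 K) := I ⊔ Ideal.span {((z ^ k : ℕ) : 𝓞 K)} with h𝔞
  set 𝔠 : Ideal (𝓞 K) := I ⊔ Ideal.span {((c : ℕ) : 𝓞 K)} with h𝔠
  set 𝔷 : Ideal (𝓞 K) := I ⊔ Ideal.span {((z : ℕ) : 𝓞 K)} with h𝔷
  have hmem : ((c * z ^ k : ℕ) : 𝓞 K) ∈ I := by
    have := Ideal.absNorm_mem I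
    rwa [hNI] at this
  have hcopR : IsCoprime ((z ^ k : ℕ) : 𝓞 K) ((c : ℕ) : 𝓞 K) := by
    have h1 : IsCoprime ((z ^ k : ℕ) : ℤ) ((c : ℕ) : ℤ) :=
      Nat.isCoprime_iff_coprime.2 (Nat.Coprime.pow_left k hcz)
    have h2 := h1.map (algebraMap ℤ (𝓞 K))
    simpa using h2
  have htop : Ideal.span {((z ^ k : ℕ) : 𝓞 K)} ⊔ Ideal.span {((c : ℕ) : 𝓞 K)} = ⊤ := by
    rw [← Ideal.isCoprime_iff_sup_eq]
    exact (Ideal.isCoprime_span_singleton_iff _ _).2 hcopR
  -- (1)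
  have hac : 𝔞 * 𝔠 = I := by
    apply le_antisymm
    · rw [h𝔞, h𝔠, Ideal.mul_sup, Ideal.sup_mul, Ideal.sup_mul]
      have hl : ∀ X Y : Ideal (𝓞 K), X * Y ≤ Y := fun X Y => Ideal.mul_le_right
      have hr : ∀ X Y : Ideal (𝓞 K), X * Y ≤ X := fun X Y => Ideal.mul_le_left
      refine sup_le (sup_le ?_ ?_) (sup_le ?_ ?_)
      · exact hl _ _
      · exact hl _ _
      · exact hr _ _
      · rw [Ideal.span_singleton_mul_span_singleton, Ideal.span_singleton_le_iff_mem]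
        have : ((z ^ k : ℕ) : 𝓞 K) * ((c : ℕ) : 𝓞 K) = ((c * z ^ k : ℕ) : 𝓞 K) := by
          push_cast; ring
        rw [this]
        exact hmem
    · calc I = I * (Ideal.span {((z ^ k : ℕ) : 𝓞 K)} ⊔ Ideal.span {((c : ℕ) : 𝓞 K)}) := by
            rw [htop, Ideal.mul_top]
        _ = I * Ideal.span {((z ^ k : ℕ) : 𝓞 K)} ⊔ I * Ideal.span {((c : ℕ) : 𝓞 K)} :=
            Ideal.mul_sup _ _ _
        _ ≤ 𝔞 * 𝔠 := by
            refine sup_le ?_ ?_
            · rw [mul_comm]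
              exact Ideal.mul_mono le_sup_right le_sup_left
            · exact Ideal.mul_mono le_sup_left le_sup_right
  -- (2)
  have hNac : Ideal.absNorm 𝔞 * Ideal.absNorm 𝔠 = c * z ^ k := by
    rw [← map_mul, hac, hNI]
  have hNa3 : Ideal.absNorm 𝔞 ∣ (z ^ k) ^ 2 := by
    rw [← hnat]
    exact Ideal.absNorm_dvd_absNorm_of_le le_sup_right
  have hNc3 : Ideal.absNorm 𝔠 ∣ c ^ 2 := by
    rw [← hnat]
    exact Ideal.absNorm_dvd_absNorm_of_le le_sup_right
  have hca : Nat.Coprime (Ideal.absNorm 𝔞) c :=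
    Nat.Coprime.coprime_dvd_left hNa3 (Nat.Coprime.pow_left 2 (Nat.Coprime.pow_left k hcz))
  have hcc : Nat.Coprime (z ^ k) (Ideal.absNorm 𝔠) :=
    Nat.Coprime.coprime_dvd_right hNc3 (Nat.Coprime.pow_right 2 (Nat.Coprime.pow_left k hcz))
  have hcc' : Nat.Coprime (Ideal.absNorm 𝔠) (z ^ k) := hcc.symm
  have hNa : Ideal.absNorm 𝔞 = z ^ k := by
    apply Nat.dvd_antisymm
    · exact hca.dvd_of_dvd_mul_left (Dvd.intro _ hNac)
    · exact hcc.dvd_of_dvd_mul_right (by rw [hNac]; exact dvd_mul_left _ _)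
  have hNc : Ideal.absNorm 𝔠 = c := by
    rw [hNa, mul_comm] at hNac
    exact Nat.eq_of_mul_eq_mul_right (by positivity) hNac
  -- (3)
  have hpow : 𝔷 ^ k ≤ 𝔞 := by
    rw [h𝔷, h𝔞]
    refine (sup_pow_le _ _ k).trans ?_
    rw [Ideal.span_singleton_pow]
    push_cast
    exact le_rfl
  -- (4) upper bound
  have hzv : IsCoprime (z : ℤ) v := by
    have h1 : IsCoprime (u ^ 2 + r * u * v + (r ^ 2 - A) * v ^ 2) v := by
      have h2 : u ^ 2 + r * u * v + (r ^ 2 - A) * v ^ 2 =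
          u ^ 2 + v * (r * u + (r ^ 2 - A) * v) := by
        ring
      rw [h2]
      exact (huv.pow_left).add_mul_left_left _
    have h3 : (z : ℤ) ∣ u ^ 2 + r * u * v + (r ^ 2 - A) * v ^ 2 := by
      rw [Int.natCast_dvd, hG]
      exact (dvd_pow_self z (by omega)).mul_left c
    exact h1.of_isCoprime_of_dvd_left h3
  obtain ⟨a, b, hab⟩ := hzv
  have hzi : IsCoprime (z : ℤ) (i : ℤ) := Nat.isCoprime_iff_coprime.2 hiz
  obtain ⟨a', j, haj⟩ := hzi
  have hle : Ideal.absNorm 𝔷 ≤ z := by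
    rw [Ideal.absNorm_apply, Submodule.cardQuot_apply]
    have hz0 : (Ideal.Quotient.mk 𝔷) ((z : ℕ) : 𝓞 K) = 0 :=
      Ideal.Quotient.eq_zero_iff_mem.2 (Ideal.mem_sup_right (Ideal.mem_span_singleton_self _))
    have hξ0 : (Ideal.Quotient.mk 𝔷) ξ = 0 :=
      Ideal.Quotient.eq_zero_iff_mem.2 (Ideal.mem_sup_left (Ideal.mem_span_singleton_self _))
    set q := Ideal.Quotient.mk 𝔷 with hq
    have hz0' : ((z : ℕ) : 𝓞 K ⧸ 𝔷) = 0 := by rw [← map_natCast q]; exact hz0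
    have hab' : (b : 𝓞 K ⧸ 𝔷) * (v : 𝓞 K ⧸ 𝔷) = 1 := by
      have := congrArg (fun m : ℤ => (m : 𝓞 K ⧸ 𝔷)) hab
      push_cast at this
      rw [hz0', mul_zero, zero_add] at this
      exact this
    have haj' : (j : 𝓞 K ⧸ 𝔷) * (i : 𝓞 K ⧸ 𝔷) = 1 := by
      have := congrArg (fun m : ℤ => (m : 𝓞 K ⧸ 𝔷)) haj
      push_cast at this
      rw [hz0', mul_zero, zero_add] at this
      exact this
    have hρ : q ρ = (b : 𝓞 K ⧸ 𝔷) * u := by
      have h1 : (u : 𝓞 K ⧸ 𝔷) - v * q ρ = 0 := by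
        have := hξ0
        rw [hξ, map_sub, map_mul, map_intCast, map_intCast] at this
        exact this
      have h2 : (u : 𝓞 K ⧸ 𝔷) = v * q ρ := sub_eq_zero.1 h1
      rw [h2, ← mul_assoc, hab', one_mul]
    have hsurj : Function.Surjective (fun m : Fin z => ((m : ℕ) : 𝓞 K ⧸ 𝔷)) := by
      intro y
      obtain ⟨α, rfl⟩ := Ideal.Quotient.mk_surjective y
      obtain ⟨x, y, hα⟩ := hIdx α
      have h1 : (i : 𝓞 K ⧸ 𝔷) * q α = x + y * q ρ := by
        have := congrArg q hα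
        simpa using this
      have h2 : q α = ((j * (x + y * (b * u)) : ℤ) : 𝓞 K ⧸ 𝔷) := by
        calc q α = (j * i : 𝓞 K ⧸ 𝔷) * q α := by rw [haj', one_mul]
          _ = j * ((i : 𝓞 K ⧸ 𝔷) * q α) := by ring
          _ = _ := by rw [h1, hρ]; push_cast; ring
      set n : ℤ := j * (x + y * (b * u)) with hn
      have hzpos : (0 : ℤ) < z := by exact_mod_cast hz
      have hr0 := Int.emod_nonneg n hzpos.ne'
      have hr1 := Int.emod_lt_of_pos n hzpos
      refine ⟨⟨(n % z).toNat, by omega⟩, ?_⟩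
      change (((n % z).toNat : ℕ) : 𝓞 K ⧸ 𝔷) = q α
      rw [h2]
      have h3 : (((n % z).toNat : ℕ) : ℤ) = n % z := Int.toNat_of_nonneg hr0
      have h4 : (((n % z).toNat : ℕ) : 𝓞 K ⧸ 𝔷) = (((n % z : ℤ)) : 𝓞 K ⧸ 𝔷) := by
        rw [← h3]; push_cast; rfl
      rw [h4]
      have h5 : n % z = n - z * (n / z) := by rw [Int.emod_def]
      rw [h5]
      push_cast
      rw [hz0', zero_mul, sub_zero]
    calc Nat.card (𝓞 K ⧸ 𝔷) ≤ Nat.card (Fin z) := Nat.card_le_card_of_surjective _ hsurj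
      _ = z := by simp
  have hge : z ≤ Ideal.absNorm 𝔷 := by
    have h1 : z ^ k ∣ Ideal.absNorm 𝔷 ^ k := by
      rw [← hNa, ← map_pow]
      exact Ideal.absNorm_dvd_absNorm_of_le hpow
    have h2 : 0 < Ideal.absNorm 𝔷 := by
      rw [Nat.pos_iff_ne_zero]
      intro h0
      rw [Ideal.absNorm_eq_zero_iff] at h0
      have h3 : ((z : ℕ) : 𝓞 K) ∈ 𝔷 := Ideal.mem_sup_right (Ideal.mem_span_singleton_self _)
      rw [h0, Ideal.mem_bot] at h3
      have : z = 0 := by exact_mod_cast h3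
      omega
    have h3 := Nat.le_of_dvd (by positivity) h1
    exact (Nat.pow_le_pow_iff_left (by omega)).1 h3
  have hNz : Ideal.absNorm 𝔷 = z := le_antisymm hle hge
  -- (5)
  have heq : 𝔷 ^ k = 𝔞 := by
    obtain ⟨𝔟, h𝔟⟩ := Ideal.dvd_iff_le.2 hpow
    have h1 : Ideal.absNorm 𝔟 = 1 := by
      have := congrArg Ideal.absNorm h𝔟
      rw [map_pow, map_mul, hNz, hNa] at this
      exact Nat.eq_of_mul_eq_mul_left (by positivity : 0 < z ^ k) (by rw [← this, mul_one])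
    rw [Ideal.absNorm_eq_one_iff] at h1
    rw [h𝔟, h1, Ideal.mul_top]
  exact ⟨𝔠, 𝔷, hNc, hNz, by rw [heq, mul_comm, hac]⟩

end Pool.Agent.W475.CD
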